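import Mathlib

/-!
# Elementary facts on the maps `z ↦ (z + a) / (1 + a z)` and `z ↦ z (z + b) / (1 + b z)`
-/

set_option autoImplicit false

open Complex Metric Set Filter Topology MeasureTheory
open scoped ComplexConjugate

namespace Pool.Agent.T2h27.DW

/-- the disc automorphism `z ↦ (z + a) / (1 + a z)` -/
noncomputable def mob (a : ℝ) (z : ℂ) : ℂ := (z + a) / (1 + a * z)

/-- the degree two Blaschke product `z ↦ z (z + b) / (1 + b z)` -/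
noncomputable def h (b : ℝ) (z : ℂ) : ℂ := z * mob b z

lemma normSq_identity (a : ℝ) (z : ℂ) :
    ‖1 + (a : ℂ) * z‖ ^ 2 - ‖z + a‖ ^ 2 = (1 - ‖z‖ ^ 2) * (1 - a ^ 2) := by
  rw [← Complex.normSq_eq_norm_sq, ← Complex.normSq_eq_norm_sq, ← Complex.normSq_eq_norm_sq]
  simp [Complex.normSq_apply]
  ring

lemma one_add_ge {a : ℝ} {z : ℂ} (hz : ‖z‖ ≤ 1) :
    1 - |a| ≤ ‖1 + (a : ℂ) * z‖ := by
  have h2 : ‖(a : ℂ) * z‖ ≤ |a| := by
    rw [norm_mul, Complex.norm_real, Real.norm_eq_abs]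
    exact mul_le_of_le_one_right (abs_nonneg _) hz
  have h3 : ‖(1 : ℂ)‖ ≤ ‖1 + (a : ℂ) * z‖ + ‖(a : ℂ) * z‖ := by
    have := norm_sub_le (1 + (a : ℂ) * z) ((a : ℂ) * z)
    simpa using this
  rw [norm_one] at h3
  linarith

lemma one_add_ne {a : ℝ} (h0 : -1 < a) (h1 : a < 1) {z : ℂ} (hz : ‖z‖ ≤ 1) :
    1 + (a : ℂ) * z ≠ 0 := by
  have h2 := one_add_ge (a := a) hz
  have h3 : |a| < 1 := abs_lt.2 ⟨h0, h1⟩
  intro h
  rw [h, norm_zero] at h2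
  linarith

lemma mob_norm_le {a : ℝ} (h0 : -1 < a) (h1 : a < 1) {z : ℂ} (hz : ‖z‖ ≤ 1) :
    ‖mob a z‖ ≤ 1 := by
  unfold mob
  rw [norm_div]
  have hne := one_add_ne h0 h1 hz
  have hpos : 0 < ‖1 + (a : ℂ) * z‖ := norm_pos_iff.2 hne
  rw [div_le_one hpos]
  have h2 := normSq_identity a z
  have h3 : 0 ≤ (1 - ‖z‖ ^ 2) * (1 - a ^ 2) := by
    apply mul_nonneg
    · nlinarith [norm_nonneg z]
    · nlinarith
  exact (sq_le_sq₀ (norm_nonneg _) hpos.le).1 (by linarith)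

lemma mob_norm_eq {a : ℝ} (h0 : -1 < a) (h1 : a < 1) {z : ℂ} (hz : ‖z‖ = 1) :
    ‖mob a z‖ = 1 := by
  unfold mob
  rw [norm_div]
  have hne := one_add_ne h0 h1 hz.le
  have hpos : 0 < ‖1 + (a : ℂ) * z‖ := norm_pos_iff.2 hne
  rw [div_eq_one_iff_eq hpos.ne']
  have h2 := normSq_identity a z
  rw [hz] at h2
  have h3 : ‖1 + (a : ℂ) * z‖ ^ 2 = ‖z + a‖ ^ 2 := by linarith
  exact ((sq_eq_sq₀ (norm_nonneg _) (norm_nonneg _)).1 h3).symm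

lemma mob_norm_lt {a : ℝ} (h0 : -1 < a) (h1 : a < 1) {z : ℂ} (hz : ‖z‖ < 1) :
    ‖mob a z‖ < 1 := by
  unfold mob
  rw [norm_div]
  have hne := one_add_ne h0 h1 hz.le
  have hpos : 0 < ‖1 + (a : ℂ) * z‖ := norm_pos_iff.2 hne
  rw [div_lt_one hpos]
  have h2 := normSq_identity a z
  have h3 : 0 < (1 - ‖z‖ ^ 2) * (1 - a ^ 2) := by
    apply mul_pos
    · nlinarith [norm_nonneg z]
    · nlinarith
  by_contra hc
  push Not at hc
  nlinarith [norm_nonneg (z + (a : ℂ))]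

lemma mob_neg_mob {a : ℝ} (h0 : -1 < a) (h1 : a < 1) {z : ℂ} (hz : ‖z‖ ≤ 1) :
    mob (-a) (mob a z) = z := by
  unfold mob
  have hne := one_add_ne h0 h1 hz
  have h2 : (1 : ℂ) - (a : ℂ) ^ 2 ≠ 0 := by
    have : (1 : ℝ) - a ^ 2 ≠ 0 := by nlinarith
    exact_mod_cast this
  have h3 : (1 : ℂ) + ((-a : ℝ) : ℂ) * ((z + a) / (1 + a * z)) = (1 - (a : ℂ) ^ 2) / (1 + a * z) := by
    rw [eq_div_iff hne, add_mul, mul_assoc, div_mul_cancel₀ _ hne]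
    push_cast
    ring
  rw [h3, div_eq_iff (div_ne_zero h2 hne), ← mul_div_assoc, eq_div_iff hne, add_mul,
    div_mul_cancel₀ _ hne]
  push_cast
  ring

lemma mob_zero (a : ℝ) : mob a 0 = a := by simp [mob]

lemma mob_diff {a : ℝ} (h0 : -1 < a) (h1 : a < 1) {z : ℂ} (hz : ‖z‖ ≤ 1) :
    DifferentiableAt ℂ (mob a) z := by
  unfold mob
  exact (by fun_prop : DifferentiableAt ℂ (fun z : ℂ => z + (a : ℂ)) z).div
    (by fun_prop) (one_add_ne h0 h1 hz)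

lemma h_diff {b : ℝ} (h0 : -1 < b) (h1 : b < 1) {z : ℂ} (hz : ‖z‖ ≤ 1) :
    DifferentiableAt ℂ (h b) z := by
  unfold h
  exact differentiableAt_id.mul (mob_diff h0 h1 hz)

lemma h_norm_le {b : ℝ} (h0 : -1 < b) (h1 : b < 1) {z : ℂ} (hz : ‖z‖ ≤ 1) : ‖h b z‖ ≤ ‖z‖ := by
  unfold h
  rw [norm_mul]
  exact mul_le_of_le_one_right (norm_nonneg _) (mob_norm_le h0 h1 hz)

lemma h_norm_eq {b : ℝ} (h0 : -1 < b) (h1 : b < 1) {z : ℂ} (hz : ‖z‖ = 1) : ‖h b z‖ = 1 := by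
  unfold h
  rw [norm_mul, mob_norm_eq h0 h1 hz, hz, one_mul]

lemma h_zero_right (b : ℝ) : h b 0 = 0 := by simp [h]

lemma h_zero_left (z : ℂ) : h 0 z = z ^ 2 := by simp [h, mob, sq]

/-- `|h_b(w) - w| ≤ 4 (1 - b) / |1 + w|` -/
lemma h_sub {b : ℝ} (h0 : 0 ≤ b) (h1 : b < 1) {w : ℂ} (hw : ‖w‖ ≤ 1) (hne : 1 + w ≠ 0) :
    ‖h b w - w‖ ≤ 4 * (1 - b) / ‖1 + w‖ := by
  have hd := one_add_ne (by linarith) h1 hw
  have hdp : 0 < ‖1 + (b : ℂ) * w‖ := norm_pos_iff.2 hd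
  have hp : 0 < ‖1 + w‖ := norm_pos_iff.2 hne
  have h2 : h b w - w = w * ((1 - b : ℝ) * (w - 1)) / (1 + b * w) := by
    unfold h mob
    rw [eq_div_iff hd, sub_mul, mul_assoc, div_mul_cancel₀ _ hd]
    push_cast
    ring
  have h3 : ‖w - 1‖ ≤ 2 := by
    have := norm_sub_le w 1
    rw [norm_one] at this
    linarith
  have h4 : ‖1 + w‖ ≤ 2 * ‖1 + (b : ℂ) * w‖ := by
    have h5 : (1 : ℂ) + w = (1 + b * w) + ((1 - b : ℝ) : ℂ) * w := by push_cast; ring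
    have h6 : ‖((1 - b : ℝ) : ℂ) * w‖ ≤ 1 - b := by
      rw [norm_mul, Complex.norm_real, Real.norm_of_nonneg (by linarith)]
      exact mul_le_of_le_one_right (by linarith) hw
    have h7 := one_add_ge (a := b) hw
    rw [abs_of_nonneg h0] at h7
    calc ‖1 + w‖ = ‖(1 + b * w) + ((1 - b : ℝ) : ℂ) * w‖ := by rw [← h5]
      _ ≤ _ := norm_add_le _ _
      _ ≤ _ := by linarith
  rw [h2, norm_div, norm_mul, norm_mul, Complex.norm_real, Real.norm_of_nonneg (by linarith),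
    div_le_div_iff₀ hdp hp]
  have h8 : ‖w‖ * ((1 - b) * ‖w - 1‖) ≤ 2 * (1 - b) := by
    have h9 : (1 - b) * ‖w - 1‖ ≤ (1 - b) * 2 := mul_le_mul_of_nonneg_left h3 (by linarith)
    have h10 : ‖w‖ * ((1 - b) * ‖w - 1‖) ≤ 1 * ((1 - b) * ‖w - 1‖) :=
      mul_le_mul_of_nonneg_right hw (mul_nonneg (by linarith) (norm_nonneg _))
    linarith
  calc ‖w‖ * ((1 - b) * ‖w - 1‖) * ‖1 + w‖ ≤ (2 * (1 - b)) * (2 * ‖1 + (b : ℂ) * w‖) :=
        mul_le_mul h8 h4 (norm_nonneg _) (by linarith)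
    _ = _ := by ring

/-- `|1 - M_a(w)| ≤ 4 (1 - a) / |1 + w|` -/
lemma one_sub_mob {a : ℝ} (h0 : 0 ≤ a) (h1 : a < 1) {w : ℂ} (hw : ‖w‖ ≤ 1) (hne : 1 + w ≠ 0) :
    ‖1 - mob a w‖ ≤ 4 * (1 - a) / ‖1 + w‖ := by
  have hd := one_add_ne (by linarith) h1 hw
  have hdp : 0 < ‖1 + (a : ℂ) * w‖ := norm_pos_iff.2 hd
  have hp : 0 < ‖1 + w‖ := norm_pos_iff.2 hne
  have h2 : 1 - mob a w = ((1 - a : ℝ) * (1 - w)) / (1 + a * w) := by
    unfold mob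
    rw [eq_div_iff hd, sub_mul, div_mul_cancel₀ _ hd]
    push_cast
    ring
  have h3 : ‖1 - w‖ ≤ 2 := by
    have := norm_sub_le 1 w
    rw [norm_one] at this
    linarith
  have h4 : ‖1 + w‖ ≤ 2 * ‖1 + (a : ℂ) * w‖ := by
    have h5 : (1 : ℂ) + w = (1 + a * w) + ((1 - a : ℝ) : ℂ) * w := by push_cast; ring
    have h6 : ‖((1 - a : ℝ) : ℂ) * w‖ ≤ 1 - a := by
      rw [norm_mul, Complex.norm_real, Real.norm_of_nonneg (by linarith)]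
      exact mul_le_of_le_one_right (by linarith) hw
    have h7 := one_add_ge (a := a) hw
    rw [abs_of_nonneg h0] at h7
    calc ‖1 + w‖ = ‖(1 + a * w) + ((1 - a : ℝ) : ℂ) * w‖ := by rw [← h5]
      _ ≤ _ := norm_add_le _ _
      _ ≤ _ := by linarith
  rw [h2, norm_div, norm_mul, Complex.norm_real, Real.norm_of_nonneg (by linarith),
    div_le_div_iff₀ hdp hp]
  calc (1 - a) * ‖1 - w‖ * ‖1 + w‖ ≤ ((1 - a) * 2) * (2 * ‖1 + (a : ℂ) * w‖) :=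
        mul_le_mul (mul_le_mul_of_nonneg_left h3 (by linarith)) h4 (norm_nonneg _)
          (mul_nonneg (by linarith) (by norm_num))
    _ = _ := by ring

end Pool.Agent.T2h27.DW
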