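import Pool.Agent.T2h27.DW1

/-!
# The compositions `W_n = h_{b_n} ∘ ⋯ ∘ h_{b_1}` and a measure estimate
-/

set_option autoImplicit false

open Complex Metric Set Filter Topology MeasureTheory
open scoped ComplexConjugate

namespace Pool.Agent.T2h27.DW

/-- `W_n = h_{b_n} ∘ ⋯ ∘ h_{b_1}` -/
noncomputable def W (b : ℕ → ℝ) : ℕ → ℂ → ℂ
  | 0 => id
  | n + 1 => fun z => h (b (n + 1)) (W b n z)

variable {b : ℕ → ℝ}

lemma W_norm_le (h0 : ∀ n, 0 ≤ b n) (h1 : ∀ n, b n < 1) (n : ℕ) {z : ℂ} (hz : ‖z‖ ≤ 1) :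
    ‖W b n z‖ ≤ ‖z‖ := by
  induction n with
  | zero => exact le_rfl
  | succ n ih =>
    exact (h_norm_le (by linarith [h0 (n + 1)]) (h1 _) (ih.trans hz)).trans ih

lemma W_norm_anti (h0 : ∀ n, 0 ≤ b n) (h1 : ∀ n, b n < 1) (n : ℕ) {z : ℂ} (hz : ‖z‖ ≤ 1) :
    ‖W b (n + 1) z‖ ≤ ‖W b n z‖ :=
  h_norm_le (by linarith [h0 (n + 1)]) (h1 _) ((W_norm_le h0 h1 n hz).trans hz)

lemma W_norm_eq (h0 : ∀ n, 0 ≤ b n) (h1 : ∀ n, b n < 1) (n : ℕ) {z : ℂ} (hz : ‖z‖ = 1) :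
    ‖W b n z‖ = 1 := by
  induction n with
  | zero => exact hz
  | succ n ih => exact h_norm_eq (by linarith [h0 (n + 1)]) (h1 _) ih

lemma W_zero (n : ℕ) : W b n 0 = 0 := by
  induction n with
  | zero => rfl
  | succ n ih => simp only [W, ih, h_zero_right]

lemma W_diff (h0 : ∀ n, 0 ≤ b n) (h1 : ∀ n, b n < 1) (n : ℕ) {z : ℂ} (hz : ‖z‖ ≤ 1) :
    DifferentiableAt ℂ (W b n) z := by
  induction n with
  | zero => exact differentiableAt_id
  | succ n ih =>
    exact (h_diff (b := b (n + 1)) (by linarith [h0 (n + 1)]) (h1 _)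
      ((W_norm_le h0 h1 n hz).trans hz)).comp z ih

/-- If `b n = 0` infinitely often then `W_n → 0` in the disc. -/
lemma W_tendsto (h0 : ∀ n, 0 ≤ b n) (h1 : ∀ n, b n < 1) (hb : ∃ᶠ n in atTop, b n = 0)
    {z : ℂ} (hz : ‖z‖ < 1) : Tendsto (fun n => ‖W b n z‖) atTop (𝓝 0) := by
  have hanti : Antitone (fun n => ‖W b n z‖) :=
    antitone_nat_of_succ_le fun n => W_norm_anti h0 h1 n hz.le
  have hbdd : BddBelow (range fun n => ‖W b n z‖) := ⟨0, by rintro _ ⟨n, rfl⟩; exact norm_nonneg _⟩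
  have hlim := tendsto_atTop_ciInf hanti hbdd
  set r := ⨅ n, ‖W b n z‖ with hr
  have hr0 : 0 ≤ r := le_ciInf fun n => norm_nonneg _
  have hrz : r ≤ ‖z‖ := (ciInf_le hbdd 0).trans le_rfl
  have hsq : r ≤ r ^ 2 := by
    have h2 : ∃ᶠ n in atTop, ‖W b (n + 1) z‖ = ‖W b n z‖ ^ 2 := by
      rw [frequently_atTop] at hb ⊢
      intro N
      obtain ⟨m, hm, hm0⟩ := hb (N + 1)
      obtain ⟨n, rfl⟩ : ∃ n, m = n + 1 := ⟨m - 1, by omega⟩
      refine ⟨n, by omega, ?_⟩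
      simp only [W, hm0, h_zero_left, norm_pow]
    have h3 : ∃ᶠ n in atTop, r ≤ ‖W b n z‖ ^ 2 := by
      refine h2.mono fun n hn => ?_
      rw [← hn]
      exact ciInf_le hbdd (n + 1)
    have h4 : Tendsto (fun n => ‖W b n z‖ ^ 2) atTop (𝓝 (r ^ 2)) := hlim.pow 2
    exact ge_of_tendsto_of_frequently h4 h3
  have hr1 : r = 0 := by
    by_contra hne
    have hpos : 0 < r := lt_of_le_of_ne hr0 (Ne.symm hne)
    nlinarith
  rw [hr1] at hlim
  exact hlim

/-- The set of angles where `|1 + a w(e^{iθ})| < δ` is small. -/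
lemma measure_small {w : ℂ → ℂ} (hd : ∀ z : ℂ, ‖z‖ ≤ 1 → DifferentiableAt ℂ w z)
    (hle : ∀ z : ℂ, ‖z‖ ≤ 1 → ‖w z‖ ≤ 1) (hw0 : w 0 = 0) {a δ : ℝ} (ha0 : 0 ≤ a) (ha1 : a < 1)
    (hδ : 0 < δ) :
    volume {θ : ℝ | θ ∈ Ioc 0 (2 * Real.pi) ∧ ‖1 + (a : ℂ) * w (circleMap 0 1 θ)‖ < δ} ≤
      ENNReal.ofReal (2 * Real.pi * (δ ^ 2 / (1 - a ^ 2))) := by
  set H : ℂ → ℂ := fun z => (1 - a * w z) / (1 + a * w z) with hH
  have hne : ∀ z : ℂ, ‖z‖ ≤ 1 → 1 + (a : ℂ) * w z ≠ 0 := fun z hz =>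
    one_add_ne (by linarith) ha1 (hle z hz)
  have hHd : ∀ z : ℂ, ‖z‖ ≤ 1 → DifferentiableAt ℂ H z := fun z hz =>
    ((differentiableAt_const _).sub ((hd z hz).const_mul _)).div
      ((differentiableAt_const _).add ((hd z hz).const_mul _)) (hne z hz)
  have hcl : DiffContOnCl ℂ H (ball (0 : ℂ) |1|) := by
    have hc : closure (ball (0 : ℂ) |1|) = closedBall 0 1 := by
      rw [abs_one, closure_ball _ one_ne_zero]
    refine ⟨fun z hz => (hHd z ?_).differentiableWithinAt, ?_⟩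
    · rw [abs_one, mem_ball_zero_iff] at hz
      exact hz.le
    · rw [hc]
      intro z hz
      exact (hHd z (mem_closedBall_zero_iff.1 hz)).continuousAt.continuousWithinAt
  have havg := hcl.circleAverage
  rw [Real.circleAverage_def, hH] at havg
  simp only [hw0, mul_zero, sub_zero, add_zero, div_one] at havg
  have hpi : (0 : ℝ) < 2 * Real.pi := by positivity
  have hint : ∫ θ in (0 : ℝ)..(2 * Real.pi), H (circleMap 0 1 θ) = ((2 * Real.pi : ℝ) : ℂ) := by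
    have : (2 * Real.pi)⁻¹ • ∫ θ in (0 : ℝ)..(2 * Real.pi), H (circleMap 0 1 θ) = 1 := havg
    rw [inv_smul_eq_iff₀ hpi.ne'] at this
    rw [this]
    simp
  have hcont : Continuous fun θ : ℝ => H (circleMap 0 1 θ) := by
    rw [continuous_iff_continuousAt]
    intro θ
    have h1 : ContinuousAt H (circleMap 0 1 θ) := (hHd _ (by simp)).continuousAt
    exact h1.comp (continuous_circleMap 0 1).continuousAt
  have hcw : Continuous fun θ : ℝ => w (circleMap 0 1 θ) := by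
    rw [continuous_iff_continuousAt]
    intro θ
    have h1 : ContinuousAt w (circleMap 0 1 θ) := (hd _ (by simp)).continuousAt
    exact h1.comp (continuous_circleMap 0 1).continuousAt
  have hre : ∫ θ in (0 : ℝ)..(2 * Real.pi), (H (circleMap 0 1 θ)).re = 2 * Real.pi := by
    have h2 : ∫ θ in (0 : ℝ)..(2 * Real.pi), (H (circleMap 0 1 θ)).re =
        (∫ θ in (0 : ℝ)..(2 * Real.pi), H (circleMap 0 1 θ)).re := by
      rw [intervalIntegral.integral_of_le hpi.le, intervalIntegral.integral_of_le hpi.le]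
      exact integral_re (𝕜 := ℂ) (hcont.integrableOn_Ioc (a := 0) (b := 2 * Real.pi))
    rw [h2, hint, Complex.ofReal_re]
  have hkey : ∀ z : ℂ, ‖z‖ ≤ 1 → (1 - a ^ 2) / ‖1 + (a : ℂ) * w z‖ ^ 2 ≤ (H z).re := by
    intro z hz
    have h2 : (H z).re = (1 - a ^ 2 * ‖w z‖ ^ 2) / ‖1 + (a : ℂ) * w z‖ ^ 2 := by
      simp only [hH]
      rw [Complex.div_re, ← Complex.normSq_eq_norm_sq, ← Complex.normSq_eq_norm_sq,
        ← add_div]
      congr 1
      simp [Complex.normSq_apply]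
      ring
    rw [h2]
    have h3 : a ^ 2 * ‖w z‖ ^ 2 ≤ a ^ 2 := by
      apply mul_le_of_le_one_right (sq_nonneg _)
      have := hle z hz
      nlinarith [norm_nonneg (w z)]
    gcongr
  have hpos1 : 0 < 1 - a ^ 2 := by nlinarith
  -- Markov
  set E := {θ : ℝ | θ ∈ Ioc 0 (2 * Real.pi) ∧ ‖1 + (a : ℂ) * w (circleMap 0 1 θ)‖ < δ} with hE
  have hEm : MeasurableSet E := by
    have h1 : Measurable fun θ : ℝ => ‖1 + (a : ℂ) * w (circleMap 0 1 θ)‖ := by
      exact (continuous_const.add (continuous_const.mul hcw)).norm.measurable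
    exact measurableSet_Ioc.inter (measurableSet_lt h1 measurable_const)
  have hEsub : E ⊆ Ioc 0 (2 * Real.pi) := fun θ hθ => hθ.1
  have hEfin : volume E ≠ ⊤ := ((measure_mono hEsub).trans_lt measure_Ioc_lt_top).ne
  have hnonneg : ∀ θ : ℝ, 0 ≤ (H (circleMap 0 1 θ)).re := fun θ =>
    le_trans (by positivity) (hkey _ (by simp))
  have hI : ∫ θ in E, (H (circleMap 0 1 θ)).re ≤ 2 * Real.pi := by
    rw [← hre, intervalIntegral.integral_of_le hpi.le]
    apply setIntegral_mono_set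
    · exact (Complex.continuous_re.comp hcont).integrableOn_Ioc
    · exact Eventually.of_forall fun θ => hnonneg θ
    · exact Filter.Eventually.of_forall fun θ hθ => hEsub hθ
  have hI2 : (1 - a ^ 2) / δ ^ 2 * volume.real E ≤ ∫ θ in E, (H (circleMap 0 1 θ)).re := by
    have h5 : ∫ θ in E, (1 - a ^ 2) / δ ^ 2 = volume.real E * ((1 - a ^ 2) / δ ^ 2) := by
      rw [setIntegral_const, smul_eq_mul]
    rw [mul_comm, ← h5]
    apply setIntegral_mono_on
    · exact integrableOn_const hEfin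
    · exact ((Complex.continuous_re.comp hcont).integrableOn_Ioc).mono_set hEsub
    · exact hEm
    · intro θ hθ
      refine le_trans ?_ (hkey _ (by simp))
      have hp : 0 < ‖1 + (a : ℂ) * w (circleMap 0 1 θ)‖ := norm_pos_iff.2 (hne _ (by simp))
      have hlt : ‖1 + (a : ℂ) * w (circleMap 0 1 θ)‖ < δ := hθ.2
      gcongr
  have hfinal : volume.real E ≤ 2 * Real.pi * (δ ^ 2 / (1 - a ^ 2)) := by
    have h6 := hI2.trans hI
    have hδ2 : 0 < δ ^ 2 := by positivity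
    rw [div_mul_eq_mul_div, div_le_iff₀ hδ2] at h6
    rw [← mul_div_assoc, le_div_iff₀ hpos1]
    linarith
  rw [← ENNReal.ofReal_toReal hEfin]
  exact ENNReal.ofReal_le_ofReal hfinal

end Pool.Agent.T2h27.DW
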