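import Pool.Agent.T2h27.DW2

/-!
# The block structure and the almost everywhere estimate
-/

set_option autoImplicit false

open Complex Metric Set Filter Topology MeasureTheory
open scoped ComplexConjugate

namespace Pool.Agent.T2h27.DW

/-- times of the block starts -/
lemma exists_blocks {t : ℕ → ℝ} (ht : Tendsto t atTop (𝓝 0)) (ht1 : ∀ n, t n ≤ 1) :
    ∃ N : ℕ → ℕ, StrictMono N ∧ N 0 = 0 ∧ ∀ k n, N k ≤ n → t n ≤ (1 / 16 : ℝ) ^ k := by
  have h1 : ∀ k : ℕ, ∃ N, ∀ m ≥ N, ∀ n, m ≤ n → t n ≤ (1 / 16 : ℝ) ^ k := by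
    intro k
    have h2 : ∀ᶠ n in atTop, t n < (1 / 16 : ℝ) ^ k := ht.eventually_lt_const (by positivity)
    obtain ⟨N, hN⟩ := eventually_atTop.1 h2
    exact ⟨N, fun m hm n hn => (hN n (hm.trans hn)).le⟩
  obtain ⟨φ, hφ, h⟩ := extraction_forall_of_eventually' h1
  refine ⟨fun k => if k = 0 then 0 else φ k, ?_, if_pos rfl, ?_⟩
  · apply strictMono_nat_of_lt_succ
    intro k
    rcases Nat.eq_zero_or_pos k with rfl | hk
    · simp only [zero_add, one_ne_zero, if_false]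
      exact (Nat.zero_le _).trans_lt (hφ zero_lt_one)
    · rw [if_neg (by omega), if_neg (by omega)]
      exact hφ (Nat.lt_succ_self k)
  · intro k n hn
    rcases Nat.eq_zero_or_pos k with rfl | hk
    · simpa using ht1 n
    · simp only [if_neg hk.ne'] at hn
      exact h k n hn

/-- the number of the block of the time `n` -/
noncomputable def blk (N : ℕ → ℕ) (n : ℕ) : ℕ := Nat.findGreatest (fun k => N k ≤ n) n

section Blk

variable {N : ℕ → ℕ} (hN : StrictMono N) (hN0 : N 0 = 0)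

include hN0 in
lemma blk_le (n : ℕ) : N (blk N n) ≤ n :=
  Nat.findGreatest_spec (P := fun k => N k ≤ n) (Nat.zero_le n) (by rw [hN0]; exact Nat.zero_le n)

include hN in
lemma lt_blk (n : ℕ) : n < N (blk N n + 1) := by
  by_contra hc
  push Not at hc
  have h1 : blk N n + 1 ≤ n := (hN.id_le _).trans hc
  exact Nat.findGreatest_is_greatest (P := fun k => N k ≤ n) (Nat.lt_succ_self _) h1 hc

include hN hN0 in
lemma blk_mono : Monotone (blk N) := by
  intro m n hmn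
  have h1 := blk_le hN0 m
  have h2 := lt_blk hN n
  have h3 : N (blk N m) < N (blk N n + 1) := by omega
  have := hN.lt_iff_lt.1 h3
  omega

include hN in
lemma le_blk {k n : ℕ} (h : N k ≤ n) : k ≤ blk N n := by
  have h2 := lt_blk hN n
  have h3 : N k < N (blk N n + 1) := by omega
  have := hN.lt_iff_lt.1 h3
  omega

include hN hN0 in
lemma blk_N (k : ℕ) : blk N (N k) = k := by
  apply le_antisymm
  · have h1 := blk_le hN0 (N k)
    exact hN.le_iff_le.1 h1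
  · exact le_blk hN le_rfl

include hN hN0 in
lemma blk_start {n : ℕ} (h : blk N (n + 1) ≠ blk N n) : N (blk N (n + 1)) = n + 1 := by
  have h1 := blk_le hN0 (n + 1)
  by_contra hc
  have h2 : N (blk N (n + 1)) ≤ n := by omega
  have h3 := le_blk hN h2
  have h4 := blk_mono hN hN0 (Nat.le_succ n)
  simp only [Nat.succ_eq_add_one] at h4
  omega

include hN hN0 in
lemma blk_tendsto : Tendsto (blk N) atTop atTop := by
  rw [Filter.tendsto_atTop]
  intro k
  filter_upwards [eventually_ge_atTop (N k)] with n hn using le_blk hN hn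

end Blk

/-- the position `F_n(0)` -/
noncomputable def aa (N : ℕ → ℕ) (n : ℕ) : ℝ := 1 - (1 / 16 : ℝ) ^ blk N n

/-- the parameters of the degree two maps -/
noncomputable def bb (N : ℕ → ℕ) (n : ℕ) : ℝ :=
  if blk N n = blk N (n - 1) then 1 - (1 / 64 : ℝ) ^ blk N n * (1 / 2) ^ n / 64 else 0

lemma aa_nonneg (N : ℕ → ℕ) (n : ℕ) : 0 ≤ aa N n := by
  unfold aa
  have : (1 / 16 : ℝ) ^ blk N n ≤ 1 := pow_le_one₀ (by norm_num) (by norm_num)
  linarith

lemma aa_lt (N : ℕ → ℕ) (n : ℕ) : aa N n < 1 := by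
  unfold aa
  have : 0 < (1 / 16 : ℝ) ^ blk N n := by positivity
  linarith

lemma bb_nonneg (N : ℕ → ℕ) (n : ℕ) : 0 ≤ bb N n := by
  unfold bb
  split_ifs
  · have h1 : (1 / 64 : ℝ) ^ blk N n ≤ 1 := pow_le_one₀ (by norm_num) (by norm_num)
    have h2 : (1 / 2 : ℝ) ^ n ≤ 1 := pow_le_one₀ (by norm_num) (by norm_num)
    have h3 : (1 / 64 : ℝ) ^ blk N n * (1 / 2) ^ n ≤ 1 * 1 :=
      mul_le_mul h1 h2 (by positivity) (by norm_num)
    linarith
  · exact le_rfl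

lemma bb_lt (N : ℕ → ℕ) (n : ℕ) : bb N n < 1 := by
  unfold bb
  split_ifs
  · have : 0 < (1 / 64 : ℝ) ^ blk N n * (1 / 2) ^ n / 64 := by positivity
    linarith
  · norm_num

/-- the bad set of angles of the block `k` -/
def bad (N : ℕ → ℕ) (k : ℕ) : Set ℝ :=
  {θ : ℝ | θ ∈ Ioc 0 (2 * Real.pi) ∧
    ‖1 + ((1 - (1 / 16 : ℝ) ^ k : ℝ) : ℂ) * W (bb N) (N k) (circleMap 0 1 θ)‖ < (1 / 8) ^ k}

lemma measure_bad (N : ℕ → ℕ) (k : ℕ) :
    volume (bad N k) ≤ ENNReal.ofReal (2 * Real.pi * (1 / 4) ^ k) := by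
  have h16 : (1 / 16 : ℝ) ^ k ≤ 1 := pow_le_one₀ (by norm_num) (by norm_num)
  have h16p : 0 < (1 / 16 : ℝ) ^ k := by positivity
  have h1 := measure_small (w := W (bb N) (N k))
    (fun z hz => W_diff (bb_nonneg N) (bb_lt N) _ hz)
    (fun z hz => (W_norm_le (bb_nonneg N) (bb_lt N) _ hz).trans hz) (W_zero _)
    (a := 1 - (1 / 16 : ℝ) ^ k) (δ := (1 / 8) ^ k) (by linarith) (by linarith) (by positivity)
  refine h1.trans (ENNReal.ofReal_le_ofReal ?_)
  apply mul_le_mul_of_nonneg_left _ (by positivity)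
  have h2 : (1 / 16 : ℝ) ^ k ≤ 1 - (1 - (1 / 16 : ℝ) ^ k) ^ 2 := by nlinarith
  calc ((1 / 8 : ℝ) ^ k) ^ 2 / (1 - (1 - (1 / 16 : ℝ) ^ k) ^ 2)
      ≤ ((1 / 8 : ℝ) ^ k) ^ 2 / (1 / 16) ^ k := by gcongr
    _ = (1 / 4) ^ k := by
      rw [← pow_mul, mul_comm k 2, pow_mul, ← div_pow]
      norm_num

lemma ae_good (N : ℕ → ℕ) : ∀ᵐ θ : ℝ, ∀ᶠ k in atTop, θ ∉ bad N k := by
  refine ae_eventually_notMem ?_
  refine ((ENNReal.tsum_le_tsum fun k => measure_bad N k).trans_lt ?_).ne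
  rw [← ENNReal.ofReal_tsum_of_nonneg]
  · exact ENNReal.ofReal_lt_top
  · intro k; positivity
  · exact (summable_geometric_of_lt_one (by norm_num) (by norm_num)).mul_left _

lemma lower {N : ℕ → ℕ} (hN : StrictMono N) (hN0 : N 0 = 0) {θ : ℝ}
    (hθ : θ ∈ Ioc 0 (2 * Real.pi)) {K : ℕ} (hK : 1 ≤ K) (hgood : ∀ k, K ≤ k → θ ∉ bad N k)
    (n : ℕ) (hn : N K ≤ n) :
    (1 / 8 : ℝ) ^ blk N n * ((1 / 4) * (1 + (1 / 2) ^ n)) ≤ ‖1 + W (bb N) n (circleMap 0 1 θ)‖ := by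
  have hz : ‖circleMap 0 1 θ‖ ≤ 1 := by simp
  have hW : ∀ m, ‖W (bb N) m (circleMap 0 1 θ)‖ ≤ 1 := fun m =>
    (W_norm_le (bb_nonneg N) (bb_lt N) _ hz).trans hz
  -- block starts
  have hstart : ∀ k, K ≤ k → (1 / 8 : ℝ) ^ k * ((1 / 4) * (1 + (1 / 2) ^ (N k))) ≤
      ‖1 + W (bb N) (N k) (circleMap 0 1 θ)‖ := by
    intro k hk
    have h1 := hgood k hk
    simp only [bad, mem_ofPred_eq, not_and, not_lt] at h1
    have h2 := h1 hθ
    set w := W (bb N) (N k) (circleMap 0 1 θ) with hw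
    have h3 : ‖1 + ((1 - (1 / 16 : ℝ) ^ k : ℝ) : ℂ) * w‖ ≤ ‖1 + w‖ + (1 / 16) ^ k := by
      have h4 : 1 + ((1 - (1 / 16 : ℝ) ^ k : ℝ) : ℂ) * w =
          (1 + w) - (((1 / 16 : ℝ) ^ k : ℝ) : ℂ) * w := by push_cast; ring
      rw [h4]
      refine (norm_sub_le _ _).trans ?_
      gcongr
      rw [norm_mul, Complex.norm_real, Real.norm_of_nonneg (by positivity)]
      exact mul_le_of_le_one_right (by positivity) (hW _)
    have h5 : (1 / 16 : ℝ) ^ k = (1 / 8) ^ k * (1 / 2) ^ k := by rw [← mul_pow]; norm_num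
    have h6 : (1 / 2 : ℝ) ^ k ≤ 1 / 2 := by
      calc (1 / 2 : ℝ) ^ k ≤ (1 / 2) ^ 1 :=
            pow_le_pow_of_le_one (by norm_num) (by norm_num) (hK.trans hk)
        _ = 1 / 2 := pow_one _
    have h7 : (1 / 2 : ℝ) ^ (N k) ≤ 1 := pow_le_one₀ (by norm_num) (by norm_num)
    have h8 : 0 < (1 / 8 : ℝ) ^ k := by positivity
    nlinarith
  induction n, hn using Nat.le_induction with
  | base =>
    rw [blk_N hN hN0]
    exact hstart K le_rfl
  | succ n hn ih =>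
    by_cases hb : blk N (n + 1) = blk N n
    · -- inside a block
      rw [hb]
      set k := blk N n with hk
      set w := W (bb N) n (circleMap 0 1 θ) with hw
      have hp8 : 0 < (1 / 8 : ℝ) ^ k := by positivity
      have hp2 : 0 < (1 / 2 : ℝ) ^ n := by positivity
      have hlow : (1 / 8 : ℝ) ^ k * (1 / 4) ≤ ‖1 + w‖ := by nlinarith
      have hpos : 0 < ‖1 + w‖ := lt_of_lt_of_le (by positivity) hlow
      have hne : 1 + w ≠ 0 := norm_pos_iff.1 hpos
      have h1 := h_sub (bb_nonneg N (n + 1)) (bb_lt N (n + 1)) (hW n) hne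
      have h2 : W (bb N) (n + 1) (circleMap 0 1 θ) = h (bb N (n + 1)) w := rfl
      have h3 : 1 - bb N (n + 1) = (1 / 64 : ℝ) ^ k * (1 / 2) ^ (n + 1) / 64 := by
        unfold bb
        rw [if_pos (by rw [Nat.add_sub_cancel]; exact hb), hb]
        ring
      rw [h3] at h1
      have h4 : 4 * ((1 / 64 : ℝ) ^ k * (1 / 2) ^ (n + 1) / 64) / ‖1 + w‖ ≤
          (1 / 8) ^ k * (1 / 4) * (1 / 2) ^ (n + 1) := by
        rw [div_le_iff₀ hpos]
        have h5 : (1 / 64 : ℝ) ^ k = (1 / 8) ^ k * (1 / 8) ^ k := by rw [← mul_pow]; norm_num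
        rw [h5]
        have h6 : (1 / 8 : ℝ) ^ k * (1 / 4) * (1 / 2) ^ (n + 1) * ((1 / 8) ^ k * (1 / 4)) ≤
            (1 / 8 : ℝ) ^ k * (1 / 4) * (1 / 2) ^ (n + 1) * ‖1 + w‖ :=
          mul_le_mul_of_nonneg_left hlow (by positivity)
        linarith
      rw [h2]
      have h7 : ‖1 + w‖ ≤ ‖1 + h (bb N (n + 1)) w‖ + ‖h (bb N (n + 1)) w - w‖ := by
        have : 1 + w = (1 + h (bb N (n + 1)) w) - (h (bb N (n + 1)) w - w) := by ring
        calc ‖1 + w‖ = ‖(1 + h (bb N (n + 1)) w) - (h (bb N (n + 1)) w - w)‖ := by rw [← this]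
          _ ≤ _ := norm_sub_le _ _
      have h8 : (1 / 2 : ℝ) ^ n = 2 * (1 / 2) ^ (n + 1) := by rw [pow_succ]; ring
      rw [h8] at ih
      have h9 := h1.trans h4
      nlinarith
    · have h1 := blk_start hN hN0 hb
      have h2 : K ≤ blk N (n + 1) := le_blk hN (by omega)
      have h3 := hstart _ h2
      rw [h1] at h3
      exact h3

end Pool.Agent.T2h27.DW
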