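import Pool.Agent.T2h27.DW3

/-!
# Blaschke form of the maps, invariance of the pseudo-hyperbolic distance
-/

set_option autoImplicit false

open Complex Metric Set Filter Topology MeasureTheory
open scoped ComplexConjugate

namespace Pool.Agent.T2h27.DW

/-- the maps of the forward composition: `M_a ∘ h_b ∘ M_{-a'}` -/
noncomputable def ff (a b a' : ℝ) (z : ℂ) : ℂ := mob a (h b (mob (-a') z))

lemma neg_bounds {a : ℝ} (h0 : 0 ≤ a) (h1 : a < 1) : -1 < -a ∧ -a < 1 := by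
  constructor <;> linarith

lemma ff_mapsTo {a b a' : ℝ} (ha0 : 0 ≤ a) (ha1 : a < 1) (hb0 : 0 ≤ b) (hb1 : b < 1)
    (ha0' : 0 ≤ a') (ha1' : a' < 1) {z : ℂ} (hz : ‖z‖ < 1) : ‖ff a b a' z‖ < 1 := by
  have h1 := neg_bounds ha0' ha1'
  have h2 := mob_norm_lt h1.1 h1.2 hz
  exact mob_norm_lt (by linarith) ha1 ((h_norm_le (by linarith) hb1 h2.le).trans_lt h2)

lemma ff_norm_eq {a b a' : ℝ} (ha0 : 0 ≤ a) (ha1 : a < 1) (hb0 : 0 ≤ b) (hb1 : b < 1)
    (ha0' : 0 ≤ a') (ha1' : a' < 1) {z : ℂ} (hz : ‖z‖ = 1) : ‖ff a b a' z‖ = 1 := by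
  have h1 := neg_bounds ha0' ha1'
  exact mob_norm_eq (by linarith) ha1 (h_norm_eq (by linarith) hb1 (mob_norm_eq h1.1 h1.2 hz))

lemma ff_diff {a b a' : ℝ} (ha0 : 0 ≤ a) (ha1 : a < 1) (hb0 : 0 ≤ b) (hb1 : b < 1)
    (ha0' : 0 ≤ a') (ha1' : a' < 1) {z : ℂ} (hz : ‖z‖ ≤ 1) :
    DifferentiableAt ℂ (ff a b a') z := by
  have h1 := neg_bounds ha0' ha1'
  have h2 := mob_norm_le h1.1 h1.2 hz
  have h3 := (h_norm_le (by linarith) hb1 h2).trans h2
  have d1 : DifferentiableAt ℂ (mob (-a')) z := mob_diff h1.1 h1.2 hz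
  have d2 : DifferentiableAt ℂ (h b) (mob (-a') z) := h_diff (by linarith) hb1 h2
  have d3 : DifferentiableAt ℂ (mob a) (h b (mob (-a') z)) := mob_diff (by linarith) ha1 h3
  exact (d3.comp z (d2.comp z d1) :)

/-- `f` is (on the closed unit disc) a Blaschke product of degree two. -/
lemma ff_blaschke {a b a' : ℝ} (ha0 : 0 ≤ a) (ha1 : a < 1) (hb0 : 0 ≤ b) (hb1 : b < 1)
    (ha0' : 0 ≤ a') (ha1' : a' < 1) :
    ∃ p q : ℂ, ‖p‖ < 1 ∧ ‖q‖ < 1 ∧ ∀ z : ℂ, ‖z‖ ≤ 1 →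
      ff a b a' z = ((z - p) / (1 - conj p * z)) * ((z - q) / (1 - conj q * z)) := by
  have hneg := neg_bounds ha0' ha1'
  set β : ℝ := b * (1 + a) with hβ
  set A : ℝ := 1 - β * a' + a * a' ^ 2 with hA
  set B : ℝ := -2 * a' + β * (1 + a' ^ 2) - 2 * a * a' with hB
  set C : ℝ := a' ^ 2 - β * a' + a with hC
  have hApos : 0 < A := by
    have h1 : β * a' ≤ (1 + a) * a' := by
      rw [hβ]
      apply mul_le_mul_of_nonneg_right _ ha0'
      nlinarith
    have h2 : 0 < (1 - a') * (1 - a * a') := by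
      apply mul_pos (by linarith)
      nlinarith
    rw [hA]
    nlinarith
  have hAne : (A : ℂ) ≠ 0 := by exact_mod_cast hApos.ne'
  -- the roots
  obtain ⟨d, hd⟩ := IsAlgClosed.exists_pow_nat_eq (((-B / A : ℝ) : ℂ) ^ 2 - 4 * ((C / A : ℝ) : ℂ))
    (n := 2) (by norm_num)
  set p : ℂ := (((-B / A : ℝ) : ℂ) + d) / 2 with hp
  set q : ℂ := (((-B / A : ℝ) : ℂ) - d) / 2 with hq
  have hsum : p + q = ((-B / A : ℝ) : ℂ) := by rw [hp, hq]; ring
  have hprod : p * q = ((C / A : ℝ) : ℂ) := by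
    rw [hp, hq]
    linear_combination (-1 / 4 : ℂ) * hd
  have hsum' : conj p + conj q = ((-B / A : ℝ) : ℂ) := by
    rw [← map_add, hsum, Complex.conj_ofReal]
  have hprod' : conj p * conj q = ((C / A : ℝ) : ℂ) := by
    rw [← map_mul, hprod, Complex.conj_ofReal]
  have hBA : (B : ℂ) = -(A : ℂ) * ((-B / A : ℝ) : ℂ) := by
    push_cast
    field_simp
  have hCA : (C : ℂ) = (A : ℂ) * ((C / A : ℝ) : ℂ) := by
    push_cast
    field_simp
  have hnum : ∀ z : ℂ, (A : ℂ) * z ^ 2 + B * z + C = A * ((z - p) * (z - q)) := by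
    intro z
    rw [hBA, hCA, ← hsum, ← hprod]
    ring
  have hden : ∀ z : ℂ, (C : ℂ) * z ^ 2 + B * z + A = A * ((1 - conj p * z) * (1 - conj q * z)) := by
    intro z
    rw [hBA, hCA, ← hsum', ← hprod']
    ring
  -- the map
  have hmain : ∀ z : ℂ, ‖z‖ ≤ 1 → ((C : ℂ) * z ^ 2 + B * z + A ≠ 0) ∧
      ff a b a' z = ((A : ℂ) * z ^ 2 + B * z + C) / ((C : ℂ) * z ^ 2 + B * z + A) := by
    intro z hz
    have hv : 1 + ((-a' : ℝ) : ℂ) * z ≠ 0 := one_add_ne hneg.1 hneg.2 hz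
    have hw1 := mob_norm_le hneg.1 hneg.2 hz
    have hbw : 1 + (b : ℂ) * mob (-a') z ≠ 0 := one_add_ne (by linarith) hb1 hw1
    have hah : 1 + (a : ℂ) * h b (mob (-a') z) ≠ 0 :=
      one_add_ne (by linarith) ha1 ((h_norm_le (by linarith) hb1 hw1).trans hw1)
    set v : ℂ := 1 + ((-a' : ℝ) : ℂ) * z with hvdef
    set u : ℂ := z + ((-a' : ℝ) : ℂ) with hudef
    have hw : mob (-a') z = u / v := rfl
    rw [hw] at hbw hah
    have hvb : v + b * u ≠ 0 := by
      intro h0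
      apply hbw
      rw [← mul_div_assoc, ← div_self hv, ← add_div, h0, zero_div]
    have hh : h b (u / v) = (u * (u + b * v)) / (v * (v + b * u)) := by
      unfold h mob
      have e1 : u / v + b = (u + b * v) / v := by
        rw [eq_div_iff hv, add_mul, div_mul_cancel₀ _ hv]
      have e2 : 1 + (b : ℂ) * (u / v) = (v + b * u) / v := by
        rw [eq_div_iff hv, add_mul, mul_assoc, div_mul_cancel₀ _ hv, one_mul]
      rw [e1, e2, div_div_div_cancel_right₀ hv, div_mul_div_comm]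
    have hP : v * (v + b * u) ≠ 0 := mul_ne_zero hv hvb
    have e3 : h b (u / v) + a = (u * (u + b * v) + a * (v * (v + b * u))) / (v * (v + b * u)) := by
      rw [hh, eq_div_iff hP, add_mul, div_mul_cancel₀ _ hP]
    have e4 : 1 + (a : ℂ) * h b (u / v) =
        (v * (v + b * u) + a * (u * (u + b * v))) / (v * (v + b * u)) := by
      rw [hh, eq_div_iff hP, add_mul, mul_assoc, div_mul_cancel₀ _ hP, one_mul]
    have hD : v * (v + b * u) + a * (u * (u + b * v)) ≠ 0 := by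
      intro h0
      apply hah
      rw [e4, h0, zero_div]
    have e5 : v * (v + b * u) + a * (u * (u + b * v)) = (C : ℂ) * z ^ 2 + B * z + A := by
      rw [hvdef, hudef, hA, hB, hC, hβ]
      push_cast
      ring
    have e6 : u * (u + b * v) + a * (v * (v + b * u)) = (A : ℂ) * z ^ 2 + B * z + C := by
      rw [hvdef, hudef, hA, hB, hC, hβ]
      push_cast
      ring
    refine ⟨by rw [← e5]; exact hD, ?_⟩
    unfold ff
    rw [hw]
    change (h b (u / v) + a) / (1 + (a : ℂ) * h b (u / v)) = _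
    rw [e3, e4, div_div_div_cancel_right₀ hP, e5, e6]
  have hroot : ∀ p q : ℂ, (∀ z : ℂ, (C : ℂ) * z ^ 2 + B * z + A =
      A * ((1 - conj p * z) * (1 - conj q * z))) → ‖p‖ < 1 := by
    intro p q hpq
    by_contra hc
    push Not at hc
    have hp0 : conj p ≠ 0 := by
      intro h0
      have : p = 0 := by simpa using h0
      rw [this, norm_zero] at hc
      linarith
    have h1 : ‖(conj p)⁻¹‖ ≤ 1 := by
      rw [norm_inv, RCLike.norm_conj]
      exact inv_le_one_of_one_le₀ hc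
    apply (hmain _ h1).1
    rw [hpq, mul_inv_cancel₀ hp0]
    ring
  refine ⟨p, q, hroot p q hden, hroot q p (fun z => by rw [hden z]; ring), fun z hz => ?_⟩
  rw [(hmain z hz).2, hnum, hden, mul_div_mul_left _ _ hAne, div_mul_div_comm]

/-- The map `M_a` preserves the pseudo-hyperbolic distance. -/
lemma mob_pseudo {a : ℝ} (h0 : -1 < a) (h1 : a < 1) {z w : ℂ} (hz : ‖z‖ < 1) (hw : ‖w‖ < 1) :
    ‖(mob a z - mob a w) / (1 - conj (mob a w) * mob a z)‖ =
      ‖(z - w) / (1 - conj w * z)‖ := by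
  have hz1 := one_add_ne h0 h1 hz.le
  have hw1 := one_add_ne h0 h1 hw.le
  have hw2 : 1 + (a : ℂ) * conj w ≠ 0 :=
    one_add_ne h0 h1 (by rw [RCLike.norm_conj]; exact hw.le)
  have ha : ((1 - a ^ 2 : ℝ) : ℂ) ≠ 0 := by
    have : (1 : ℝ) - a ^ 2 ≠ 0 := by nlinarith
    exact_mod_cast this
  have e1 : mob a z - mob a w = ((1 - a ^ 2 : ℝ) : ℂ) * (z - w) / ((1 + a * z) * (1 + a * w)) := by
    unfold mob
    rw [div_sub_div _ _ hz1 hw1]
    congr 1
    push_cast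
    ring
  have e2 : conj (mob a w) = (conj w + a) / (1 + a * conj w) := by
    unfold mob
    simp only [map_div₀, map_add, map_mul, map_one, Complex.conj_ofReal]
  have e3 : 1 - conj (mob a w) * mob a z =
      ((1 - a ^ 2 : ℝ) : ℂ) * (1 - conj w * z) / ((1 + a * z) * (1 + a * conj w)) := by
    rw [e2]
    unfold mob
    rw [div_mul_div_comm, eq_div_iff (mul_ne_zero hz1 hw2), sub_mul, mul_comm (1 + a * z),
      div_mul_cancel₀ _ (mul_ne_zero hw2 hz1)]
    push_cast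
    ring
  have e4 : ‖1 + (a : ℂ) * conj w‖ = ‖1 + (a : ℂ) * w‖ := by
    rw [← RCLike.norm_conj (1 + (a : ℂ) * w)]
    simp only [map_add, map_mul, map_one, Complex.conj_ofReal]
  have hne1 : ‖1 + (a : ℂ) * z‖ ≠ 0 := norm_ne_zero_iff.2 hz1
  have hne2 : ‖1 + (a : ℂ) * w‖ ≠ 0 := norm_ne_zero_iff.2 hw1
  have hne3 : ‖((1 - a ^ 2 : ℝ) : ℂ)‖ ≠ 0 := norm_ne_zero_iff.2 ha
  rw [e1, e3]
  simp only [norm_div, norm_mul]
  rw [e4, div_div_div_cancel_right₀ (mul_ne_zero hne1 hne2), mul_div_mul_left _ _ hne3]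

end Pool.Agent.T2h27.DW
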